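import Pool.Agent.N658.TP.Stm
import Pool.Agent.Y170.PE.BlockSum

/-! # P3: the sum over the bond values of the block mixture -/

set_option autoImplicit false

open scoped BigOperators ComplexConjugate Classical

noncomputable section

namespace Pool.Agent.N9.TP.MixSum

open Pool.Agent.Y738.PE
open Pool.Agent.N658.TP

theorem val_lft {m : ℕ} [NeZero m] (a : ZMod m) :
    (((a.val : ℕ) : ZMod (m + 1))).val = a.val := by
  have h := ZMod.val_lt a
  exact ZMod.val_natCast_of_lt (by omega)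

theorem inn_lft {m : ℕ} [NeZero m] (q : Site m) : inn (lft q) := by
  unfold inn lft
  rw [val_lft, val_lft]
  exact ⟨ZMod.val_lt _, ZMod.val_lt _⟩

theorem red_lft {m : ℕ} [NeZero m] (q : Site m) : red (lft q) = q := by
  unfold red lft
  refine Prod.ext ?_ ?_
  · show (((((q.1.val : ℕ) : ZMod (m + 1))).val : ℕ) : ZMod m) = q.1
    rw [val_lft, ZMod.natCast_zmod_val]
  · show (((((q.2.val : ℕ) : ZMod (m + 1))).val : ℕ) : ZMod m) = q.2
    rw [val_lft, ZMod.natCast_zmod_val]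

theorem lft_red {m : ℕ} [NeZero m] {p : Site (m + 1)} (hp : inn p) : lft (red p) = p := by
  unfold red lft
  refine Prod.ext ?_ ?_
  · show (((((p.1.val : ℕ) : ZMod m)).val : ℕ) : ZMod (m + 1)) = p.1
    rw [ZMod.val_natCast_of_lt hp.1, ZMod.natCast_zmod_val]
  · show (((((p.2.val : ℕ) : ZMod m)).val : ℕ) : ZMod (m + 1)) = p.2
    rw [ZMod.val_natCast_of_lt hp.2, ZMod.natCast_zmod_val]

theorem cast_sub_one {m : ℕ} [NeZero m] {a : ZMod m} (ha : a ≠ 0) :
    ((a.val : ℕ) : ZMod (m + 1)) - 1 = (((a - 1).val : ℕ) : ZMod (m + 1)) := by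
  have h1 : a.val ≠ 0 := by
    rw [Ne, ZMod.val_eq_zero]
    exact ha
  have h2 := ZMod.val_lt a
  have h3 : (a - 1).val = a.val - 1 := by
    have h4 : a - 1 = ((a.val - 1 : ℕ) : ZMod m) := by
      rw [Nat.cast_sub (by omega), ZMod.natCast_zmod_val, Nat.cast_one]
    rw [h4]
    exact ZMod.val_natCast_of_lt (by omega)
  rw [h3, Nat.cast_sub (by omega), Nat.cast_one]

theorem lft_left {m : ℕ} [NeZero m] (q : Site m) (h : q.1 ≠ 0) :
    (((lft q).1 - 1, (lft q).2) : Site (m + 1)) = lft (q.1 - 1, q.2) := by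
  unfold lft
  exact Prod.ext (cast_sub_one h) rfl

theorem lft_down {m : ℕ} [NeZero m] (q : Site m) (h : q.2 ≠ 0) :
    (((lft q).1, (lft q).2 - 1) : Site (m + 1)) = lft (q.1, q.2 - 1) := by
  unfold lft
  exact Prod.ext rfl (cast_sub_one h)

variable {d m K : ℕ} {κ : Type}

/-- the bond values which occur -/
def EE (y0 : κ × κ × κ × κ) (x : Fin K × (Site m → κ × κ × κ × κ)) :
    Site (m + 1) → Fin K × (κ × κ × κ × κ) :=
  fun p => (x.1, if inn p then x.2 (red p) else y0)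

theorem EE_inj [NeZero m] (y0 : κ × κ × κ × κ) :
    Function.Injective (EE (m := m) (K := K) y0) := by
  intro x x' h
  refine Prod.ext ?_ ?_
  · exact congrArg (fun z => z.1) (congrFun h 0)
  · funext q
    have h1 : (EE y0 x (lft q)).2 = (EE y0 x' (lft q)).2 := by rw [h]
    unfold EE at h1
    simp only [if_pos (inn_lft q), red_lft] at h1
    exact h1

theorem EE_lft [NeZero m] (y0 : κ × κ × κ × κ) (x : Fin K × (Site m → κ × κ × κ × κ))
    (q : Site m) : EE y0 x (lft q) = (x.1, x.2 q) := by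
  unfold EE
  rw [if_pos (inn_lft q), red_lft]

theorem wI_left (C : Site m → Fin d → κ → κ → κ → κ → ℂ) (p : Site m) (s : Fin d)
    (yl yl' y yd : κ × κ × κ × κ) (hp : p.1 = 0) : wI C p s yl y yd = wI C p s yl' y yd := by
  unfold wI
  simp only [hp, ne_eq, not_true_eq_false, false_implies, true_and, if_true]

theorem wI_down (C : Site m → Fin d → κ → κ → κ → κ → ℂ) (p : Site m) (s : Fin d)
    (yl y yd yd' : κ × κ × κ × κ) (hp : p.2 = 0) : wI C p s yl y yd = wI C p s yl y yd' := by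
  unfold wI
  simp only [hp, ne_eq, not_true_eq_false, false_implies, and_true, if_true]

theorem wI_lft [NeZero m] (C : Site m → Fin d → κ → κ → κ → κ → ℂ) (y0 : κ × κ × κ × κ)
    (x : Fin K × (Site m → κ × κ × κ × κ)) (q : Site m) (s : Fin d) :
    wI C (red (lft q)) s (EE y0 x ((lft q).1 - 1, (lft q).2)).2 (EE y0 x (lft q)).2
      (EE y0 x ((lft q).1, (lft q).2 - 1)).2 =
    wI C q s (x.2 (q.1 - 1, q.2)) (x.2 q) (x.2 (q.1, q.2 - 1)) := by
  rw [red_lft, EE_lft]
  have e1 : wI C q s (EE y0 x ((lft q).1 - 1, (lft q).2)).2 (x.1, x.2 q).2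
      (EE y0 x ((lft q).1, (lft q).2 - 1)).2 =
      wI C q s (x.2 (q.1 - 1, q.2)) (x.2 q) (EE y0 x ((lft q).1, (lft q).2 - 1)).2 := by
    by_cases h : q.1 = 0
    · exact wI_left C q s _ _ _ _ h
    · rw [lft_left q h, EE_lft]
  rw [e1]
  by_cases h : q.2 = 0
  · exact wI_down C q s _ _ _ _ h
  · rw [lft_down q h, EE_lft]

theorem val_EE [NeZero m] (w : Fin K → ℂ) (C : Fin K → Site m → Fin d → κ → κ → κ → κ → ℂ)
    (y0 : κ × κ × κ × κ) (σ : Conf d (m + 1)) (x : Fin K × (Site m → κ × κ × κ × κ)) :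
    (∏ p : Site (m + 1), uX w C y0 p (σ p) (EE y0 x (p.1 - 1, p.2)) (EE y0 x p)
      (EE y0 x (p.1, p.2 - 1))) =
    w x.1 * (if ∀ p : Site (m + 1), ¬ inn p → (σ p : ℕ) = code (x.1 : ℕ) p then
      ∏ q : Site m, wI (C x.1) q (σ (lft q)) (x.2 (q.1 - 1, q.2)) (x.2 q) (x.2 (q.1, q.2 - 1))
      else 0) := by
  have h1 : ∀ p : Site (m + 1), uX w C y0 p (σ p) (EE y0 x (p.1 - 1, p.2)) (EE y0 x p)
      (EE y0 x (p.1, p.2 - 1)) =
      (if p = 0 then w x.1 else 1) *
      (if inn p then wI (C x.1) (red p) (σ p) (EE y0 x (p.1 - 1, p.2)).2 (EE y0 x p).2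
        (EE y0 x (p.1, p.2 - 1)).2 else if (σ p : ℕ) = code (x.1 : ℕ) p then 1 else 0) := by
    intro p
    unfold uX
    rw [if_pos ⟨fun _ => rfl, fun _ => rfl⟩, one_mul]
    by_cases hp : inn p
    · rw [if_pos hp, if_pos hp]
      rfl
    · rw [if_neg hp, if_neg hp]
      have e : (EE y0 x p).2 = y0 := if_neg hp
      have e' : (EE y0 x p).1 = x.1 := rfl
      rw [e, e']
      by_cases hs : (σ p : ℕ) = code (x.1 : ℕ) p
      · have hh : (σ p : ℕ) = code (x.1 : ℕ) p ∧ y0 = y0 := ⟨hs, rfl⟩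
        rw [if_pos hh, if_pos hs]
      · have hh : ¬ ((σ p : ℕ) = code (x.1 : ℕ) p ∧ y0 = y0) := fun h => hs h.1
        rw [if_neg hh, if_neg hs]
  rw [Finset.prod_congr rfl fun p _ => h1 p, Finset.prod_mul_distrib,
    Finset.prod_ite_eq' Finset.univ (0 : Site (m + 1)) (fun _ => w x.1),
    if_pos (Finset.mem_univ _), Finset.prod_ite]
  congr 1
  have h2 : (∏ p ∈ Finset.univ.filter fun p : Site (m + 1) => inn p,
      wI (C x.1) (red p) (σ p) (EE y0 x (p.1 - 1, p.2)).2 (EE y0 x p).2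
        (EE y0 x (p.1, p.2 - 1)).2) =
      ∏ q : Site m, wI (C x.1) q (σ (lft q)) (x.2 (q.1 - 1, q.2)) (x.2 q)
        (x.2 (q.1, q.2 - 1)) := by
    refine Finset.prod_nbij' red lft (fun _ _ => Finset.mem_univ _)
      (fun q _ => Finset.mem_filter.2 ⟨Finset.mem_univ _, inn_lft q⟩)
      (fun p hp => lft_red (Finset.mem_filter.1 hp).2) (fun q _ => red_lft q) ?_
    intro p hp
    have h3 := lft_red (Finset.mem_filter.1 hp).2
    have h4 := wI_lft (C x.1) y0 x (red p) (σ p)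
    rw [h3] at h4
    rw [h3]
    exact h4
  rw [h2]
  by_cases hc : ∀ p : Site (m + 1), ¬ inn p → (σ p : ℕ) = code (x.1 : ℕ) p
  · rw [if_pos hc]
    have h5 : (∏ p ∈ Finset.univ.filter fun p : Site (m + 1) => ¬ inn p,
        (if (σ p : ℕ) = code (x.1 : ℕ) p then (1 : ℂ) else 0)) = 1 := by
      refine Finset.prod_eq_one fun p hp => ?_
      rw [if_pos (hc p (Finset.mem_filter.1 hp).2)]
    rw [h5, mul_one]
  · rw [if_neg hc]
    push Not at hc
    obtain ⟨p, hp, hs⟩ := hc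
    have h5 : (∏ p ∈ Finset.univ.filter fun p : Site (m + 1) => ¬ inn p,
        (if (σ p : ℕ) = code (x.1 : ℕ) p then (1 : ℂ) else 0)) = 0 := by
      refine Finset.prod_eq_zero (i := p) (Finset.mem_filter.2 ⟨Finset.mem_univ _, hp⟩) ?_
      rw [if_neg hs]
    rw [h5, mul_zero]

/-- **P3.** -/
theorem mixSum : StmMixSum := by
  intro d m K _ κ _ w C y0 σ
  symm
  have h1 : mixV w C σ = ∑ x : Fin K × (Site m → κ × κ × κ × κ),
      w x.1 * (if ∀ p : Site (m + 1), ¬ inn p → (σ p : ℕ) = code (x.1 : ℕ) p then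
        ∏ q : Site m, wI (C x.1) q (σ (lft q)) (x.2 (q.1 - 1, q.2)) (x.2 q) (x.2 (q.1, q.2 - 1))
        else 0) := by
    unfold mixV
    rw [Fintype.sum_prod_type]
    refine Finset.sum_congr rfl fun i _ => ?_
    have h3 : (∑ y : Site m → κ × κ × κ × κ,
        w i * (if ∀ p : Site (m + 1), ¬ inn p → (σ p : ℕ) = code (i : ℕ) p then
        ∏ q : Site m, wI (C i) q (σ (lft q)) (y (q.1 - 1, q.2)) (y q) (y (q.1, q.2 - 1))
        else 0)) = w i * ∑ y : Site m → κ × κ × κ × κ,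
        (if ∀ p : Site (m + 1), ¬ inn p → (σ p : ℕ) = code (i : ℕ) p then
        ∏ q : Site m, wI (C i) q (σ (lft q)) (y (q.1 - 1, q.2)) (y q) (y (q.1, q.2 - 1))
        else 0) := by
      rw [Finset.mul_sum]
    refine Eq.trans ?_ h3.symm
    congr 1
    have h2 := Pool.Agent.Y170.PE.blockSum d m κ (C i) (fun q : Site m => σ (lft q))
    by_cases hc : ∀ p : Site (m + 1), ¬ inn p → (σ p : ℕ) = code (i : ℕ) p
    · rw [if_pos hc, ← h2]
      refine Finset.sum_congr rfl fun g _ => ?_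
      rw [if_pos hc]
    · rw [if_neg hc]
      symm
      refine Finset.sum_eq_zero fun g _ => ?_
      rw [if_neg hc]
  rw [h1]
  refine Fintype.sum_of_injective (EE y0) (EE_inj y0) _ _ ?_ ?_
  · intro g hg
    by_contra hne
    apply hg
    have hc : ∀ p : Site (m + 1), ((p.1 ≠ 0 → (g (p.1 - 1, p.2)).1 = (g p).1) ∧
        (p.2 ≠ 0 → (g (p.1, p.2 - 1)).1 = (g p).1)) ∧ (¬ inn p → (g p).2 = y0) := by
      intro p
      have hp : uX w C y0 p (σ p) (g (p.1 - 1, p.2)) (g p) (g (p.1, p.2 - 1)) ≠ 0 := by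
        intro h0
        exact hne (Finset.prod_eq_zero (Finset.mem_univ p) h0)
      unfold uX at hp
      have hp1 := left_ne_zero_of_mul (left_ne_zero_of_mul hp)
      have hp2 := right_ne_zero_of_mul hp
      refine ⟨?_, ?_⟩
      · by_contra hcon
        rw [if_neg hcon] at hp1
        exact hp1 rfl
      · intro hi
        rw [if_neg hi] at hp2
        by_contra hcon
        rw [if_neg (fun hh => hcon hh.2)] at hp2
        exact hp2 rfl
    have hrow : ∀ p : Site (m + 1), (g p).1 = (g 0).1 := by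
      intro p
      have e1 := Pool.Agent.Y170.PE.const_of (fun a => (g (a, p.2)).1)
        (fun a ha => (hc (a, p.2)).1.1 ha) p.1 0
      have e2 := Pool.Agent.Y170.PE.const_of (fun b => (g (0, b)).1)
        (fun b hb => (hc (0, b)).1.2 hb) p.2 0
      exact e1.trans e2
    refine ⟨((g 0).1, fun q => (g (lft q)).2), ?_⟩
    funext p
    refine Prod.ext ?_ ?_
    · exact (hrow p).symm
    · by_cases hi : inn p
      · have e : (EE y0 ((g 0).1, fun q => (g (lft q)).2) p).2 = (g (lft (red p))).2 := if_pos hi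
        rw [e, lft_red hi]
      · have e : (EE y0 ((g 0).1, fun q => (g (lft q)).2) p).2 = y0 := if_neg hi
        rw [e, (hc p).2 hi]
  · intro x
    exact (val_EE w C y0 σ x).symm

end Pool.Agent.N9.TP.MixSum
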